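import Pool.Agent.Helper40.LS.Basic

/-!
Project LS (MP_56dece_co), modules Q1 and Q2: independence of disjoint sets of cells, and
independence of the columns.
-/

set_option autoImplicit false
open Classical Filter Topology

namespace Pool.Agent.Helper40.LS

/-- both sides of `split_sum` as a product of two sums -/
theorem h29_split {n : ℕ} (p : ℝ) (D : Gr n) (f g : Gr n → ℝ) :
    Ex p (fun G => f (G ∩ D) * g (G \ D)) =
      (∑ A ∈ D.powerset, p ^ A.card * (1 - p) ^ (D.card - A.card) * f A) *
      (∑ B ∈ (Finset.univ \ D : Gr n).powerset,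
        p ^ B.card * (1 - p) ^ ((Finset.univ \ D : Gr n).card - B.card) * g B) := by
  rw [Finset.sum_mul_sum, ← Finset.sum_product', Ex]
  refine Finset.sum_nbij' (fun G => (G ∩ D, G \ D)) (fun x => x.1 ∪ x.2) ?_ ?_ ?_ ?_ ?_
  · intro G _
    simp only [Finset.mem_product, Finset.mem_powerset]
    exact ⟨Finset.inter_subset_right, Finset.sdiff_subset_sdiff (Finset.subset_univ _) le_rfl⟩
  · intro x _; exact Finset.mem_univ _
  · intro G _
    ext e
    simp only [Finset.mem_union, Finset.mem_inter, Finset.mem_sdiff]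
    tauto
  · rintro ⟨A, B⟩ hx
    simp only [Finset.mem_product, Finset.mem_powerset] at hx
    obtain ⟨hA, hB⟩ := hx
    have hB' : ∀ e ∈ B, e ∉ D := fun e he => (Finset.mem_sdiff.mp (hB he)).2
    refine Prod.ext ?_ ?_
    · ext e
      simp only [Finset.mem_union, Finset.mem_inter]
      constructor
      · rintro ⟨h | h, hD⟩
        · exact h
        · exact absurd hD (hB' e h)
      · intro h; exact ⟨Or.inl h, hA h⟩
    · ext e
      simp only [Finset.mem_union, Finset.mem_sdiff]
      constructor
      · rintro ⟨h | h, hD⟩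
        · exact absurd (hA h) hD
        · exact h
      · intro h; exact ⟨Or.inr h, hB' e h⟩
  · intro G _
    have hc1 : (G ∩ D).card + (G \ D).card = G.card := Finset.card_inter_add_card_sdiff G D
    have hc2 : (Finset.univ \ D : Gr n).card + D.card = Fintype.card (Fin n × Fin n) := by
      rw [Finset.card_sdiff_add_card_eq_card (Finset.subset_univ D), Finset.card_univ]
    have hc3 : (G ∩ D).card ≤ D.card := Finset.card_le_card Finset.inter_subset_right
    have hc4 : (G \ D).card ≤ (Finset.univ \ D : Gr n).card :=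
      Finset.card_le_card (Finset.sdiff_subset_sdiff (Finset.subset_univ _) le_rfl)
    have h1 : FL.wt p G = p ^ (G ∩ D).card * (1 - p) ^ (D.card - (G ∩ D).card) *
        (p ^ (G \ D).card * (1 - p) ^ ((Finset.univ \ D : Gr n).card - (G \ D).card)) := by
      rw [FL.wt, ← hc1, pow_add,
        show Fintype.card (Fin n × Fin n) - ((G ∩ D).card + (G \ D).card) =
          (D.card - (G ∩ D).card) + ((Finset.univ \ D : Gr n).card - (G \ D).card) by omega,
        pow_add]
      ring
    simp only [h1]
    ring

theorem h29_sum_powerset {X : Type} [DecidableEq X] (p : ℝ) (D : Finset X) :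
    ∑ A ∈ D.powerset, p ^ A.card * (1 - p) ^ (D.card - A.card) = 1 := by
  rw [Finset.sum_pow_mul_eq_add_pow]
  simp

/-- LS-Q1: independence of disjoint sets of cells -/
theorem split_sum {n : ℕ} (p : ℝ) (D : Gr n) (f g : Gr n → ℝ) :
    Ex p (fun G => f (G ∩ D) * g (G \ D)) =
      Ex p (fun G => f (G ∩ D)) * Ex p (fun G => g (G \ D)) := by
  have h1 := h29_split p D f (fun _ => 1)
  have h2 := h29_split p D (fun _ => 1) g
  simp only [mul_one, one_mul, h29_sum_powerset] at h1 h2
  rw [h29_split, h1, h2]

/-- the weight of a graph is the product of the weights of its columns -/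
theorem wt_cols {n : ℕ} (p : ℝ) (G : Gr n) : FL.wt p G = ∏ c, FL.wt p (nb G c) := by
  have hle : ∀ c, (nb G c).card ≤ n := fun c => by
    simpa using Finset.card_le_univ (nb G c)
  have hsum : G.card = ∑ c, (nb G c).card := by
    have := card_eq_sum (G := G)
    exact_mod_cast this
  have hsum2 : Fintype.card (Fin n × Fin n) - G.card = ∑ c, (n - (nb G c).card) := by
    have h1 : ∑ c : Fin n, (n - (nb G c).card) + ∑ c, (nb G c).card = n * n := by
      rw [← Finset.sum_add_distrib]
      rw [Finset.sum_congr rfl fun c _ => Nat.sub_add_cancel (hle c)]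
      simp
    rw [hsum, Fintype.card_prod, Fintype.card_fin]
    omega
  simp only [FL.wt]
  rw [Finset.prod_mul_distrib, Finset.prod_pow_eq_pow_sum, Finset.prod_pow_eq_pow_sum, hsum2, hsum]
  simp

/-- LS-Q2: columns are independent -/
theorem col_prod {n : ℕ} (p : ℝ) (f : Fin n → Finset (Fin n) → ℝ) :
    Ex p (fun G : Gr n => ∏ c, f c (nb G c)) =
      ∏ c, ∑ Y : Finset (Fin n), FL.wt p Y * f c Y := by
  rw [← sum_prod_rows (fun c (Y : Finset (Fin n)) => FL.wt p Y * f c Y), Ex]
  refine Finset.sum_nbij' (fun G c => nb G c)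
    (fun y => Finset.univ.filter fun e : Fin n × Fin n => e.2 ∈ y e.1) ?_ ?_ ?_ ?_ ?_
  · intro G _; exact Finset.mem_univ _
  · intro y _; exact Finset.mem_univ _
  · intro G _
    ext ⟨c, s⟩
    simp
  · intro y _
    funext c
    ext s
    simp
  · intro G _
    rw [wt_cols, ← Finset.prod_mul_distrib]

end Pool.Agent.Helper40.LS
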